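import Pool.Agent.TH464.PO.LinInst

set_option autoImplicit false

/-!
# Almost prime Cunningham chains of the first kind: the exponential law for the gaps

Let `m` be good if the `k` numbers `2 ^ i (m + 1) - 1`, `i < k` (the chain `m, 2 m + 1, 4 m + 3,
…` of length `k` starting at `m`) all have at most `r` prime factors, all larger than `X ^ (1 /
r)`. Let `V` be the product of `1 - ρ(p) / p` over the primes `p ≤ X ^ (1 / r)`, `ρ(p)` the number
of the bad residues. For all `r ≥ r0` and all large `X`, in ALL intervals `(Z, Z + Y]` inside `[0,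
2 X]` of length `Y ≥ X ^ θ` the gaps between consecutive good integers have, in the scale `1 / V`,
the exponential distribution up to `ε`, uniformly in all gap lengths; more generally the distances
between a good integer and its `l`-th good predecessor have the Gamma distribution up to `ε`.
-/

namespace Pool.Agent.Results.MP_c183ae_nt.ExponentialGaps

open Finset Filter

/-- `N` has at most `B` prime factors (with multiplicity), all of them larger than `z`. -/
def AlmostPrime (B : ℕ) (z : ℝ) (N : ℕ) : Prop :=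
  N.primeFactorsList.length ≤ B ∧ ∀ p : ℕ, p.Prime → p ∣ N → z < (p : ℝ)

/-- `m` is good: `m` starts an almost prime Cunningham chain of the first kind of length `k`: all the
`2 ^ i (m + 1) - 1`, `i < k`, have at most `r` prime factors, all larger than `X ^ (1 / r)`. -/
def Good (k r X m : ℕ) : Prop :=
  ∀ i < k, AlmostPrime r ((X : ℝ) ^ (1 / (r : ℝ))) (2 ^ i * (m + 1) - 1)

open Classical in
/-- The sieve density: the product of `1 - ρ(p) / p` over the primes `p ≤ X ^ (1 / r)`, where `ρ(p)` is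
the number of the `t` mod `p` with `p` dividing one of the `2 ^ i (t + 1) - 1`, `i < k`. -/
noncomputable def V (k r X : ℕ) : ℝ :=
  ∏ p ∈ (Finset.range (⌊(X : ℝ) ^ (1 / (r : ℝ))⌋₊ + 1)).filter Nat.Prime,
    (1 - (((Finset.range p).filter (fun t : ℕ => ∃ i < k, p ∣ 2 ^ i * (t + 1) - 1)).card : ℝ) / p)

open Classical in
/-- The number of the good `q` in `(Z, Z + Y]` with fewer than `l` good integers in `[q - T, q)`, that is,
whose `l`-th good predecessor is at distance more than `T`. For `l = 1`: the good `q` in `(Z, Z + Y]`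
with gap more than `T` before them. -/
noncomputable def Far (k r X : ℕ) (Z Y l T : ℕ) : ℕ :=
  ((Finset.Ioc Z (Z + Y)).filter (fun q => Good k r X q ∧
    ((Finset.Ico (q - T) q).filter (fun m => Good k r X m)).card < l)).card

open Pool.Agent.TH464.PO Pool.Agent.H373R2.T7 Pool.Agent.W123.RP

lemma fam (k : ℕ) (hk : 2 ≤ k) (r : ℕ) (hr : 1 ≤ r) : ∀ᶠ X : ℕ in atTop, ∀ _ : Unit, True →
    ∃ u v : Fin k → ℤ, LF k u v (X ^ 1) (Real.log X ^ (k + 1)) ∧
      (∀ m ≤ 3 * X, Sf (QL u v) ⌊(X : ℝ) ^ (1 / (r : ℝ))⌋₊ m ↔ Good k r X m) ∧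
      Vq (QL u v) ⌊(X : ℝ) ^ (1 / (r : ℝ))⌋₊ = V k r X := by
  filter_upwards [c1_fam k hk r hr] with X h _ _
  exact ⟨_, _, h.1, h.2, V_nat (c1u k) (c1v k) _ (fun p m => c1_ex k (fun N => p ∣ N) m) _⟩

open Classical in
/-- **The exponential law for the gaps** (`l = 1`, all `T`), and the Gamma law for the distances to the
`l`-th predecessor, in all intervals. -/
theorem result (k : ℕ) (hk : 2 ≤ k) (θ : ℝ) (hθ : 0 < θ) (l0 : ℕ) (x ε : ℝ) (hε : 0 < ε) :
    ∃ r0 : ℕ, ∀ r : ℕ, r0 ≤ r → ∀ᶠ X : ℕ in atTop, ∀ Z Y : ℕ, (X : ℝ) ^ θ ≤ Y →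
      Z + Y ≤ 2 * X → ∀ l T : ℕ, (l ≤ l0 ∨ T * V k r X ≤ x) →
        |(Far k r X Z Y l T : ℝ) - Y * V k r X *
          ∑ j ∈ Finset.range l, Real.exp (-(T * V k r X)) * (T * V k r X) ^ j / j.factorial| ≤
            ε * (Y * V k r X) := by
  obtain ⟨r0, h⟩ := fam_gaps k 1 (by omega) (fun _ (_ : Unit) => True) (fun r X _ m => Good k r X m)
    (fun r X _ => V k r X) (fam k hk) θ hθ l0 x ε hε
  refine ⟨r0, fun r hr => ?_⟩
  filter_upwards [h r hr] with X hX
  exact hX () trivial

end Pool.Agent.Results.MP_c183ae_nt.ExponentialGaps
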