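import Pool.Agent.TH899.UG.NDl

/-!
# Arbitrarily long chains of primes under iterates of `2 x + e`, up to small perturbations

For every `k` there is `n` such that for all integers `a_1, ..., a_k ≥ 1` there are `C` and `δ > 0` such
that for every `η > 0`, all large `N`, every `H` with `C ≤ H ≤ N / C` and EVERY integer `e` with
`|e| ≤ N / C` there is `1 ≤ m ≤ n` such that for at least `δ H ^ k` integer vectors `c`, `|c_i| ≤ H`,
there are at least `N ^ (1 - η)` primes `p ≤ C N` for which all the `a_i ^ m (p + e) - e + c_i` are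
prime.

For `a_i = 2 ^ i` these are the numbers `S ^ (i m) (p) + c_i`, where `S x = 2 x + e`; `e = 1` and
`e = -1` are the Cunningham chains of the first and of the second kind.

Proof: more than a quarter of any number of classes of linear forms are hit by primes, uniformly in
constant terms up to the size of the variable (`Pool.Agent.TH899.UG.Uni.exactL`), the density
Hales-Jewett theorem, Erdos's box theorem and an average over the translations of the classes.
-/

set_option autoImplicit false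

namespace Pool.Agent.Results.MP_c183ae_nt.NearChains

open Filter

theorem result (k : ℕ) : ∃ n : ℕ, ∀ a : Fin k → ℕ, (∀ i, 1 ≤ a i) → ∃ (C : ℕ) (δ : ℝ), 0 < δ ∧
    ∀ η : ℝ, 0 < η → ∀ᶠ N : ℕ in atTop, ∀ H : ℕ, C ≤ H → C * H ≤ N → ∀ e : ℤ, C * |e| ≤ N →
    ∃ m : ℕ, 1 ≤ m ∧ m ≤ n ∧ δ * (H : ℝ) ^ k ≤ ({c : Fin k → ℤ | (∀ i, |c i| ≤ H) ∧
      (N : ℝ) ^ (1 - η) ≤ ({p : ℕ | p ≤ C * N ∧ p.Prime ∧ ∀ i, ∃ q : ℕ, q.Prime ∧
        (q : ℤ) = (a i : ℤ) ^ m * (p + e) - e + c i}.ncard : ℝ)}.ncard : ℝ) :=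
  Pool.Agent.TH899.UG.NDl.nd k

end Pool.Agent.Results.MP_c183ae_nt.NearChains
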