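import Pool.Agent.TH816.MQ.Cst
import Pool.Agent.TH816.MQ.Ch

set_option autoImplicit false

/-! # Strings of consecutive primes all of which are at the top of almost prime bi-twin chains -/

namespace Pool.Agent.Results.MP_c183ae_nt.StringsOfBiTwinChains

open Finset

/-- `n` has at most `K` prime factors (counted with multiplicity), all of them larger than `y` -/
def AlmostPrime (K : ℕ) (y : ℝ) (n : ℕ) : Prop :=
  ArithmeticFunction.cardFactors n ≤ K ∧ ∀ ℓ : ℕ, ℓ.Prime → ℓ ∣ n → y < ℓ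

/-- The `2 k + 2` numbers `2 ^ i n - 1` (a chain of the first kind, `i ≤ k`) and `2 ^ i n + 1` (a chain
of the second kind) are almost prime. -/
def BiTwin (k K : ℕ) (y : ℝ) (n : ℕ) : Prop :=
  0 < n ∧ ∀ i ≤ k, AlmostPrime K y (2 ^ i * n - 1) ∧ AlmostPrime K y (2 ^ i * n + 1)

/-- the shifts -/
def RR (k : ℕ) : Finset ℕ :=
  (range (k + 1)).image (fun j => 2 ^ (k + 1) + 2 ^ j) ∪
    (range (k + 1)).image (fun j => 2 ^ (k + 1) - 2 ^ j)

lemma RR_card (k : ℕ) : (RR k).card ≤ 2 * k + 2 := by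
  unfold RR
  refine (card_union_le _ _).trans ?_
  have h1 : ((range (k + 1)).image (fun j => 2 ^ (k + 1) + 2 ^ j)).card ≤ k + 1 :=
    card_image_le.trans (card_range _).le
  have h2 : ((range (k + 1)).image (fun j => 2 ^ (k + 1) - 2 ^ j)).card ≤ k + 1 :=
    card_image_le.trans (card_range _).le
  omega

lemma mem_RR {k ρ : ℕ} : ρ ∈ RR k ↔ ∃ j ≤ k, ρ = 2 ^ (k + 1) + 2 ^ j ∨ ρ = 2 ^ (k + 1) - 2 ^ j := by
  unfold RR
  rw [mem_union, mem_image, mem_image]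
  constructor
  · rintro (⟨j, hj, rfl⟩ | ⟨j, hj, rfl⟩)
    · exact ⟨j, by rw [mem_range] at hj; omega, Or.inl rfl⟩
    · exact ⟨j, by rw [mem_range] at hj; omega, Or.inr rfl⟩
  · rintro ⟨j, hj, h | h⟩
    · exact Or.inl ⟨j, by rw [mem_range]; omega, h.symm⟩
    · exact Or.inr ⟨j, by rw [mem_range]; omega, h.symm⟩

open Classical in
/-- For all `k` and `m` there are `δ > 0`, `K` and `C` such that for every odd `f`, every class `a`
modulo `f` such that no prime factor of `f` divides one of the numbers `a ± 2 ^ j`, `j ≤ k` (for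
instance `a = 0`), and both `σ ∈ {1, 2 ^ (k + 1) - 1}`, there is `B` such that for all large `x` at
least `x / (log x) ^ C` integers `N` of `[x, 2 x)` satisfy:

* EVERY prime of `(N, N + B]` is one of the two numbers `2 ^ k n - 1`, `2 ^ k n + 1` of a bi-twin
  chain `2 ^ i n - 1, 2 ^ i n + 1` (`0 ≤ i ≤ k`) of `2 k + 2` products of at most `K` primes, all
  larger than `x ^ δ`, with `2 ^ k n ≡ a` modulo `f`;
* at least `m` primes of `(N, N + B]` are `≡ σ` modulo `2 ^ (k + 1)`. -/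
theorem result (k m : ℕ) : ∃ (δ : ℝ) (K C : ℕ), 0 < δ ∧ ∀ f a : ℕ, Odd f →
    (∀ j ≤ k, ∀ ℓ : ℕ, ℓ.Prime → ℓ ∣ f → ¬ ℓ ∣ a + 2 ^ j ∧ ¬ a ≡ 2 ^ j [MOD ℓ]) →
    ∀ σ : ℕ, (σ = 1 ∨ σ = 2 ^ (k + 1) - 1) →
    ∃ B x₀ : ℕ, ∀ x : ℕ, x₀ ≤ x → (x : ℝ) / Real.log x ^ C ≤
      (#{N ∈ Ico x (2 * x) |
        (∀ p ∈ Ioc N (N + B), p.Prime → ∃ n, BiTwin k K ((x : ℝ) ^ δ) n ∧ 2 ^ k * n ≡ a [MOD f] ∧
          (p + 1 = 2 ^ k * n ∨ p = 2 ^ k * n + 1)) ∧
        m ≤ #{p ∈ Ioc N (N + B) | p.Prime ∧ p ≡ σ [MOD 2 ^ (k + 1)]}} : ℝ) := by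
  obtain ⟨δ, C, hδ, hδ1, hmas⟩ := Pool.Agent.TH816.MQ.master2 m (2 * k + 2)
  obtain ⟨xo, hom⟩ := Pool.Agent.TH816.MQ.omega_le hδ
  refine ⟨δ, ⌈2 / δ⌉₊, C, hδ, fun f a hf hfa σ hσ => ?_⟩
  have hf0 : 0 < f := hf.pos
  obtain ⟨M, hM⟩ : ∃ M : ℕ, M = 2 ^ (k + 1) := ⟨_, rfl⟩
  have hM2 : M = 2 * 2 ^ k := by rw [hM, pow_succ]; ring
  have h2k : 1 ≤ 2 ^ k := Nat.one_le_two_pow
  have hM0 : 0 < M := by omega
  have hcop : M.Coprime f := by rw [hM]; exact Nat.Coprime.pow_left _ (Nat.coprime_two_left.2 hf)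
  obtain ⟨c, hc1, hc2⟩ := Nat.chineseRemainder hcop 0 (a + (f - 1) * M)
  have hcf : c + M ≡ a [MOD f] := by
    have h1 := hc2.add_right M
    have h2 : a + (f - 1) * M + M = a + f * M := by
      obtain ⟨g, rfl⟩ : ∃ g, f = g + 1 := ⟨f - 1, by omega⟩
      rw [Nat.add_sub_cancel]
      ring
    rw [h2] at h1
    refine h1.trans ?_
    have h3 : f * M ≡ 0 [MOD f] := Nat.modEq_zero_iff_dvd.2 (Dvd.intro _ rfl)
    have h4 := h3.add_left a
    rwa [add_zero] at h4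
  have hpj : ∀ j ≤ k, 2 ^ j ≤ 2 ^ k := fun j hj => Nat.pow_le_pow_right (by norm_num) hj
  -- no prime factor of `f` divides the shifted numbers
  have hnf : ∀ s : ℕ, s ≡ c [MOD f] → ∀ ρ ∈ RR k, ∀ ℓ : ℕ, ℓ.Prime → ℓ ∣ f → ¬ ℓ ∣ s + ρ := by
    intro s hs ρ hρ ℓ hℓ hℓf hd
    obtain ⟨j, hj, h | h⟩ := mem_RR.1 hρ
    · rw [← hM] at h
      have h1 : s + M ≡ a [MOD ℓ] := ((hs.add_right M).trans hcf).of_dvd hℓf
      have h2 : s + ρ ≡ a + 2 ^ j [MOD ℓ] := by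
        rw [h, ← add_assoc]
        exact h1.add_right _
      exact (hfa j hj ℓ hℓ hℓf).1
        (Nat.modEq_zero_iff_dvd.1 (h2.symm.trans (Nat.modEq_zero_iff_dvd.2 hd)))
    · rw [← hM] at h
      have h1 : s + M ≡ a [MOD ℓ] := ((hs.add_right M).trans hcf).of_dvd hℓf
      have h3 := hpj j hj
      have h4 : s + M = (s + ρ) + 2 ^ j := by omega
      have h5 : (s + ρ) + 2 ^ j ≡ 2 ^ j [MOD ℓ] := by
        have h6 := (Nat.modEq_zero_iff_dvd.2 hd).add_right (2 ^ j)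
        rwa [zero_add] at h6
      rw [h4] at h1
      exact (hfa j hj ℓ hℓ hℓf).2 (h1.symm.trans h5)
  obtain ⟨z, hz⟩ : ∃ z : ℕ, z = if σ = 1 then M + 1 else M - 1 := ⟨_, rfl⟩
  have hzcases : (σ = 1 ∧ z = M + 1) ∨ (σ = M - 1 ∧ z = M - 1) := by
    by_cases h1 : σ = 1
    · left
      rw [if_pos h1] at hz
      exact ⟨h1, hz⟩
    · right
      rw [if_neg h1] at hz
      rcases hσ with h2 | h2
      · exact absurd h2 h1
      · rw [← hM] at h2
        exact ⟨h2, hz⟩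
  have hzR : z ∈ RR k := by
    rw [mem_RR]
    refine ⟨0, Nat.zero_le _, ?_⟩
    rw [pow_zero, ← hM]
    rcases hzcases with h | h
    · exact Or.inl h.2
    · exact Or.inr h.2
  have hzodd : ∀ s : ℕ, s ≡ 0 [MOD M] → ∀ ρ : ℕ, (ρ = M + 1 ∨ ρ = M - 1) → ¬ 2 ∣ s + ρ := by
    intro s hs ρ hρ hd
    have h1 : 2 ∣ M := by rw [hM2]; exact Dvd.intro _ rfl
    have h2 : 2 ∣ s := h1.trans (Nat.modEq_zero_iff_dvd.1 hs)
    omega
  have hczq : (c + z).Coprime (M * f) := by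
    apply Nat.Coprime.mul_right
    · rw [hM]
      apply Nat.Coprime.pow_right
      apply Nat.Coprime.symm
      rw [Nat.Prime.coprime_iff_not_dvd Nat.prime_two]
      apply hzodd c hc1 z
      rcases hzcases with h | h
      · exact Or.inl h.2
      · exact Or.inr h.2
    · rw [Nat.coprime_iff_gcd_eq_one]
      by_contra hne
      obtain ⟨ℓ, hℓ, hℓd⟩ := Nat.exists_prime_and_dvd hne
      exact hnf c (Nat.ModEq.refl _) z hzR ℓ hℓ (hℓd.trans (Nat.gcd_dvd_right _ _))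
        (hℓd.trans (Nat.gcd_dvd_left _ _))
  have hadm : ∀ ℓ : ℕ, ℓ.Prime → ¬ ℓ ∣ M * f → ∃ v : ℕ, ∀ ρ ∈ RR k, ¬ ℓ ∣ v + ρ := by
    intro ℓ hℓ hℓq
    have hℓ2 : ¬ ℓ ∣ 2 := by
      intro h1
      apply hℓq
      apply Dvd.dvd.mul_right
      rw [hM2]
      exact h1.mul_right _
    have hℓj : ∀ j : ℕ, ¬ ℓ ∣ 2 ^ j := fun j h1 => hℓ2 (hℓ.dvd_of_dvd_pow h1)
    have hℓ1 : 1 ≤ ℓ := hℓ.one_lt.le
    refine ⟨(ℓ - 1) * M, fun ρ hρ hd => ?_⟩
    have hv : (ℓ - 1) * M + M = ℓ * M := by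
      obtain ⟨g, rfl⟩ : ∃ g, ℓ = g + 1 := ⟨ℓ - 1, by omega⟩
      rw [Nat.add_sub_cancel]
      ring
    obtain ⟨j, hj, h | h⟩ := mem_RR.1 hρ
    · rw [← hM] at h
      have h1 : (ℓ - 1) * M + ρ = ℓ * M + 2 ^ j := by omega
      rw [h1] at hd
      exact hℓj j ((Nat.dvd_add_right (Dvd.intro _ rfl)).1 hd)
    · rw [← hM] at h
      have h3 := hpj j hj
      have h1 : (ℓ - 1) * M + ρ + 2 ^ j = ℓ * M := by omega
      have h2 : ℓ ∣ (ℓ - 1) * M + ρ + 2 ^ j := by rw [h1]; exact Dvd.intro _ rfl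
      exact hℓj j ((Nat.dvd_add_right hd).1 h2)
  obtain ⟨B, x₁, h⟩ := hmas (M * f) c z (RR k) (Nat.mul_pos hM0 hf0) (RR_card k) hzR hczq hadm
  refine ⟨B, max (max x₁ xo) (max (B + 1) 3), fun x hx => ?_⟩
  simp only [max_le_iff] at hx
  obtain ⟨⟨hx1, hx2⟩, hx3, hx4⟩ := hx
  obtain ⟨G, hG1, hG2, hG3⟩ := h x hx1
  refine hG2.trans ?_
  have key : ∀ N ∈ G, ∀ s, N < s → (∀ ρ ∈ RR k, s + ρ ≤ N + B) →
      Pool.Agent.TH816.MQ.Cst (M * f) c (RR k) ((x : ℝ) ^ δ) s →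
      ∃ n, s + M = 2 ^ k * n ∧ BiTwin k ⌈2 / δ⌉₊ ((x : ℝ) ^ δ) n ∧ 2 ^ k * n ≡ a [MOD f] := by
    intro N hN s hs1 hs2 hs3
    have hN' := mem_Ico.1 (hG1 hN)
    have hsM : s ≡ 0 [MOD M] := (hs3.1.of_dvd (Dvd.intro _ rfl)).trans hc1
    have hsf : s ≡ c [MOD f] := hs3.1.of_dvd (Dvd.intro_left _ rfl)
    obtain ⟨u, hu⟩ := Nat.modEq_zero_iff_dvd.1 hsM
    have hn : s + M = 2 ^ k * (2 * (u + 1)) := by
      rw [hu, hM2]; ring
    refine ⟨2 * (u + 1), hn, ⟨by omega, fun i hi => ?_⟩, ?_⟩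
    · obtain ⟨j, hj⟩ : ∃ j, k = i + j := ⟨k - i, by omega⟩
      have hjk : j ≤ k := by omega
      have hjp := hpj j hjk
      obtain ⟨v, hv⟩ : ∃ v, v = 2 ^ i * (2 * (u + 1)) := ⟨_, rfl⟩
      have hvj : s + M = 2 ^ j * v := by rw [hn, hv, hj, pow_add]; ring
      have h2i : 1 ≤ 2 ^ i := Nat.one_le_two_pow
      have hv2 : 2 ≤ v := by
        rw [hv]
        nlinarith
      have hv2d : 2 ∣ v := by rw [hv]; exact (Dvd.intro _ rfl : 2 ∣ 2 * (u + 1)).mul_left _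
      have h2j : 1 ≤ 2 ^ j := Nat.one_le_two_pow
      have hvle : v ≤ s + M := by rw [hvj]; exact Nat.le_mul_of_pos_left _ h2j
      have hsB : s + M + 1 ≤ N + B := by
        have := hs2 (M + 1) (mem_RR.2 ⟨0, Nat.zero_le _, Or.inl (by rw [pow_zero, ← hM])⟩)
        omega
      rw [← hv]
      have e1 : s + (M + 2 ^ j) = 2 ^ j * (v + 1) := by rw [mul_add, ← hvj, mul_one]; ring
      have e2 : s + (M - 2 ^ j) = 2 ^ j * (v - 1) := by
        obtain ⟨w, hw⟩ : ∃ w, v = w + 1 := ⟨v - 1, by omega⟩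
        have h3 : s + (M - 2 ^ j) + 2 ^ j = 2 ^ j * w + 2 ^ j := by
          have h4 : s + M = 2 ^ j * w + 2 ^ j := by rw [hvj, hw]; ring
          omega
        rw [hw, Nat.add_sub_cancel]
        omega
      have m1 : M + 2 ^ j ∈ RR k := mem_RR.2 ⟨j, hjk, Or.inl (by rw [hM])⟩
      have m2 : M - 2 ^ j ∈ RR k := mem_RR.2 ⟨j, hjk, Or.inr (by rw [hM])⟩
      have r1 : ∀ w ρ : ℕ, ρ ∈ RR k → s + ρ = 2 ^ j * w → ¬ 2 ∣ w →
          ∀ ℓ : ℕ, ℓ.Prime → ℓ ∣ w → (x : ℝ) ^ δ < ℓ := by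
        intro w ρ hρ he hw ℓ hℓ hd
        have hds : ℓ ∣ s + ρ := by rw [he]; exact hd.mul_left _
        apply hs3.2 ρ hρ ℓ hℓ _ hds
        intro hq
        rcases hℓ.dvd_mul.1 hq with h3 | h3
        · rw [hM] at h3
          have h4 := (Nat.prime_dvd_prime_iff_eq hℓ Nat.prime_two).1 (hℓ.dvd_of_dvd_pow h3)
          rw [h4] at hd
          exact hw hd
        · exact hnf s hsf ρ hρ ℓ hℓ h3 hds
      have q1 := r1 (v - 1) _ m2 e2 (by omega)
      have q2 := r1 (v + 1) _ m1 e1 (by omega)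
      exact ⟨⟨hom x hx2 3 (v - 1) (by omega) (by omega) hx4 q1, q1⟩,
        ⟨hom x hx2 3 (v + 1) (by omega) (by omega) hx4 q2, q2⟩⟩
    · rw [← hn]
      exact (hsf.add_right M).trans hcf
  have hBx : ∀ N ∈ G, 3 ≤ N := fun N hN => by have := (mem_Ico.1 (hG1 hN)).1; omega
  exact_mod_cast Finset.card_le_card (fun N hN => by
    rw [mem_filter]
    obtain ⟨⟨S, hS1, hS2⟩, h2⟩ := hG3 N hN
    refine ⟨hG1 hN, fun p hp hpp => ?_, ?_⟩
    · obtain ⟨s, h3, h4, h5, ρ, hρ, h6⟩ := h2 p hp hpp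
      obtain ⟨n, h7, h8, h9⟩ := key N hN s h3 h4 h5
      refine ⟨n, h8, h9, ?_⟩
      have hsM : s ≡ 0 [MOD M] := (h5.1.of_dvd (Dvd.intro _ rfl)).trans hc1
      have h2s : 2 ∣ s := (by rw [hM2]; exact Dvd.intro _ rfl : 2 ∣ M).trans
        (Nat.modEq_zero_iff_dvd.1 hsM)
      have hpodd : ¬ 2 ∣ p := by
        intro hd
        have h10 := (Nat.prime_dvd_prime_iff_eq Nat.prime_two hpp).1 hd
        have h11 := (mem_Ioc.1 hp).1
        have h12 := hBx N hN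
        omega
      obtain ⟨j, hj, h10⟩ := mem_RR.1 hρ
      have hj0 : j = 0 := by
        by_contra hj0
        obtain ⟨j', rfl⟩ : ∃ j', j = j' + 1 := ⟨j - 1, by omega⟩
        have h11 := hpj _ hj
        rw [pow_succ] at h11
        rw [← hM, pow_succ] at h10
        apply hpodd
        rw [h6]
        rcases h10 with h10 | h10 <;> omega
      subst hj0
      rw [pow_zero, ← hM] at h10
      rcases h10 with h10 | h10
      · right; omega
      · left; omega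
    · rw [← hS1]
      have hSz : S.card = (S.image (fun s => s + z)).card := by
        rw [card_image_of_injective]
        intro s s' hss
        have : s + z = s' + z := hss
        omega
      rw [hSz]
      apply Finset.card_le_card
      intro p hp
      rw [mem_image] at hp
      obtain ⟨s, hs, rfl⟩ := hp
      obtain ⟨h3, h4, h5, h6⟩ := hS2 s hs
      rw [mem_filter, mem_Ioc]
      have h7 := h4 z hzR
      have hsM : s ≡ 0 [MOD M] := (h6.1.of_dvd (Dvd.intro _ rfl)).trans hc1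
      refine ⟨⟨by omega, h7⟩, h5, ?_⟩
      rw [← hM]
      have h8 : s + z ≡ 0 + z [MOD M] := hsM.add_right z
      rw [zero_add] at h8
      refine h8.trans ?_
      rcases hzcases with h9 | h9
      · rw [h9.1, h9.2]
        have h10 : M + 1 ≡ 0 + 1 [MOD M] := (Nat.modEq_zero_iff_dvd.2 (dvd_refl M)).add_right 1
        rwa [zero_add] at h10
      · rw [h9.1, h9.2])

end Pool.Agent.Results.MP_c183ae_nt.StringsOfBiTwinChains
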